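import Pool.Agent.W_4481e3_q87.GoR
import Pool.Agent.W_4481e3_tab.T4

/-!
Tree s22o4, data 10.
-/

namespace Pool.Agent.W_4481e3_rt.s22o4

open Pool.Agent.W_4481e3_q25.EvR

theorem k206 : ckO Pool.Agent.W_4481e3_tab.T4.tab 24352 36160 134217728 262144 370278 524288 5 2621440 524288 2621440 524288 515354132 515354132 7172260 7172260 268435456 268435456 16777216 16777216 529531 529531 0x100003c00003c02000c1202000c02000c03000c202000c03000c2121 = true := by decide +kernel

theorem k209 : ckO Pool.Agent.W_4481e3_tab.T4.tab 24352 36160 134217728 262144 370278 524288 4 2621440 524288 2621440 524288 522526392 493837352 14344520 14344520 268435456 268435456 16777216 16777216 529531 529531 0x100007c00003c01004c01001c121 = true := by decide +kernel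

theorem k211 : ckO Pool.Agent.W_4481e3_tab.T4.tab 24352 36160 134217728 262144 370278 524288 6 2621440 524288 2621440 524288 493837352 508181872 14344520 28689040 268435456 268435456 16777216 16777216 529531 529531 0x100000c00000c00003c00003c00003c00003c21212 = true := by decide +kernel

end Pool.Agent.W_4481e3_rt.s22o4
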